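import Pool.Agent.H17.TE5

set_option autoImplicit false

namespace Pool.Agent.Results.MP_5b7d0d_gt.NoExt

theorem result (I : Type) (hI : Cardinal.mk I = Cardinal.aleph 1) :
    ¬ ∃ φ : {f : (I → Bool) → ℝ // Continuous f} → {g : (I → unitInterval) → ℝ // Continuous g},
      Continuous φ ∧ ∀ (f : {f : (I → Bool) → ℝ // Continuous f}) (τ : I → Bool),
        (φ f).1 (fun i => if τ i then (1 : unitInterval) else 0) = f.1 τ := by
  rintro ⟨φ, hφ, he⟩
  exact Pool.Agent.H17.TE.no_ext hI φ hφ he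

end Pool.Agent.Results.MP_5b7d0d_gt.NoExt
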